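import Pool.Agent.Q258.Spider

/-!
# A CPET tree with two vertices of degree 4

The tree on `0, …, 60`: the path `0, …, 55`, the leaves `56, 57` attached to `30`, the leaf
`58` attached to `43` and the path `59, 60` attached to `43`.
-/

namespace Pool.Agent.Results.MP_d6ea2c_co.TwoHubCPETTree

open SimpleGraph Pool.Agent.Q258.ConnPart

/-- The edges `i j`, `i < j`, of the tree. -/
def edge (i j : ℕ) : Prop :=
  (j = i + 1 ∧ j ≤ 55) ∨ (i = 30 ∧ j = 56) ∨ (i = 30 ∧ j = 57) ∨ (i = 43 ∧ j = 58) ∨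
    (i = 43 ∧ j = 59) ∨ (i = 59 ∧ j = 60)

instance (i j : ℕ) : Decidable (edge i j) :=
  inferInstanceAs (Decidable ((j = i + 1 ∧ j ≤ 55) ∨ (i = 30 ∧ j = 56) ∨ (i = 30 ∧ j = 57) ∨
    (i = 43 ∧ j = 58) ∨ (i = 43 ∧ j = 59) ∨ (i = 59 ∧ j = 60)))

theorem edge_lt {i j : ℕ} (h : edge i j) : i < j := by
  unfold edge at h
  omega

/-- The tree. -/
def T : SimpleGraph (Fin 61) where
  Adj v w := edge v w ∨ edge w v
  symm := ⟨fun _ _ h => h.symm⟩
  loopless := ⟨fun _ h => by
    rcases h with h | h <;> exact absurd (edge_lt h) (lt_irrefl _)⟩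

instance : DecidableRel T.Adj := fun v w => inferInstanceAs (Decidable (edge v w ∨ edge w v))

theorem adj_of_edge {v w : Fin 61} (h : edge v.val w.val) : T.Adj w v := Or.inr h

/-- The parent of a vertex. -/
def par (j : ℕ) : ℕ :=
  if j ≤ 55 then j - 1 else if j ≤ 57 then 30 else if j ≤ 59 then 43 else 59

theorem edge_par {j : ℕ} (h0 : j ≠ 0) (h : j ≤ 60) : edge (par j) j := by
  unfold edge par
  split_ifs <;> omega

theorem par_of_edge {i j : ℕ} (h : edge i j) : i = par j := by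
  unfold edge at h
  unfold par
  split_ifs <;> omega

theorem T_isTree : T.IsTree := by
  constructor
  · apply connected_of_univ
    refine connected_of_parent _ _ ⟨0, by omega⟩ (Finset.mem_univ _) ?_
    intro v _ hv
    have hv0 : v.val ≠ 0 := fun h => hv (Fin.ext h)
    have hvn := v.2
    have he := edge_par hv0 (by omega)
    have hlt := edge_lt he
    exact ⟨⟨par v.val, by omega⟩, Finset.mem_univ _, hlt, adj_of_edge (v := ⟨par v.val, by omega⟩) he⟩
  · apply isAcyclic_of_parent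
    intro v w w' h1 h2 h3 h4
    have h1' : w.val < v.val := h1
    have h2' : w'.val < v.val := h2
    have k3 : edge w v := by
      rcases h3 with h | h
      · have := edge_lt h
        omega
      · exact h
    have k4 : edge w' v := by
      rcases h4 with h | h
      · have := edge_lt h
        omega
      · exact h
    apply Fin.ext
    rw [par_of_edge k3, par_of_edge k4]

/-- A set of vertices is connected if it contains the parents of all its vertices but one. -/
theorem connected_par (B : Finset (Fin 61)) (r : Fin 61) (hr : r ∈ B)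
    (h : ∀ v ∈ B, v ≠ r → v.val ≠ 0 ∧ ∀ w : Fin 61, w.val = par v.val → w ∈ B) :
    (T.induce (B : Set (Fin 61))).Connected := by
  refine connected_of_parent _ _ r hr ?_
  intro v hv hne
  obtain ⟨h0, hw⟩ := h v hv hne
  have he := edge_par h0 (by have := v.2; omega)
  have hlt := edge_lt he
  have := v.2
  exact ⟨⟨par v.val, by omega⟩, hw ⟨par v.val, by omega⟩ rfl, hlt,
    adj_of_edge (v := ⟨par v.val, by omega⟩) he⟩

theorem hdis (x y : ℕ) (Z : Finset (Fin 61)) (hZ : ∀ v ∈ Z, v.val < x ∨ y ≤ v.val) :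
    Disjoint (I x y) Z := by
  rw [Finset.disjoint_left]
  intro v hv hvZ
  rw [mem_I] at hv
  have := hZ v hvZ
  omega

theorem adj_main {lo hi : ℕ} (h : hi ≤ 56) : ∀ v w : Fin 61, lo ≤ v.val →
    v.val + 1 = w.val → w.val < hi → T.Adj v w := by
  intro v w h2 h3 h4
  left
  left
  omega

theorem adj_leg {lo hi : ℕ} (h : 59 ≤ lo) : ∀ v w : Fin 61, lo ≤ v.val →
    v.val + 1 = w.val → w.val < hi → T.Adj v w := by
  intro v w h2 h3 h4
  left
  right
  right
  right
  right
  right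
  omega

/-- Cutting off the blocks in the legs. -/
theorem legs (L0 L1 L2 L3 L4 L5 M : Multiset ℕ) (p0 : ∀ p ∈ L0, 1 ≤ p) (p1 : ∀ p ∈ L1, 1 ≤ p)
    (p2 : ∀ p ∈ L2, 1 ≤ p) (p3 : ∀ p ∈ L3, 1 ≤ p) (p4 : ∀ p ∈ L4, 1 ≤ p) (p5 : ∀ p ∈ L5, 1 ≤ p)
    (h0 : L0.sum ≤ 30) (h1 : L1.sum ≤ 1) (h2 : L2.sum ≤ 1) (h3 : L3.sum ≤ 12) (h4 : L4.sum ≤ 2)
    (h5 : L5.sum ≤ 1)
    (h : CP T (I L0.sum (56 - L3.sum) ∪ (I 56 (57 - L1.sum) ∪ (I 57 (58 - L2.sum) ∪
      (I 58 (59 - L5.sum) ∪ I 59 (61 - L4.sum))))) M) :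
    CP T Finset.univ (L0 + (L3 + (L1 + (L2 + (L5 + (L4 + M)))))) := by
  have hU : (Finset.univ : Finset (Fin 61)) = I 0 56 ∪ (I 56 57 ∪ (I 57 58 ∪
      (I 58 59 ∪ I 59 61))) := by
    ext v
    simp only [Finset.mem_univ, Finset.mem_union, mem_I, true_iff]
    have := v.2
    omega
  rw [hU]
  refine CP.left (by omega) L0 p0 (adj_main le_rfl) (by omega) (hdis _ _ _ ?_) ?_
  · intro v hv
    simp only [Finset.mem_union, mem_I] at hv
    omega
  refine CP.right L3 (by omega) p3 (adj_main le_rfl) (by omega) (hdis _ _ _ ?_) ?_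
  · intro v hv
    simp only [Finset.mem_union, mem_I] at hv
    omega
  rw [Finset.union_left_comm]
  refine CP.right L1 (by omega) p1 (fun v w h1 h2 h3 => by omega) (by omega)
    (hdis _ _ _ ?_) ?_
  · intro v hv
    simp only [Finset.mem_union, mem_I] at hv
    omega
  rw [Finset.union_left_comm (I (0 + L0.sum) (56 - L3.sum)), Finset.union_left_comm]
  refine CP.right L2 (by omega) p2 (fun v w h1 h2 h3 => by omega) (by omega)
    (hdis _ _ _ ?_) ?_
  · intro v hv
    simp only [Finset.mem_union, mem_I] at hv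
    omega
  rw [Finset.union_left_comm (I (0 + L0.sum) (56 - L3.sum)),
    Finset.union_left_comm (I 56 (57 - L1.sum)), Finset.union_left_comm]
  refine CP.right L5 (by omega) p5 (fun v w h1 h2 h3 => by omega) (by omega)
    (hdis _ _ _ ?_) ?_
  · intro v hv
    simp only [Finset.mem_union, mem_I] at hv
    omega
  have e : I 58 (59 - L5.sum) ∪ (I 57 (58 - L2.sum) ∪ (I 56 (57 - L1.sum) ∪
      (I (0 + L0.sum) (56 - L3.sum) ∪ I 59 61))) = (I 59 61 ∪ (I 58 (59 - L5.sum) ∪
      (I 57 (58 - L2.sum) ∪ (I 56 (57 - L1.sum) ∪ I (0 + L0.sum) (56 - L3.sum)))) :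
      Finset (Fin 61)) := by
    ext v
    simp only [Finset.mem_union, mem_I]
    omega
  rw [e]
  refine CP.right L4 (by omega) p4 (adj_leg le_rfl) (by omega)
    (hdis _ _ _ ?_) ?_
  · intro v hv
    simp only [Finset.mem_union, mem_I] at hv
    omega
  have e2 : (I 59 (61 - L4.sum) ∪ (I 58 (59 - L5.sum) ∪
      (I 57 (58 - L2.sum) ∪ (I 56 (57 - L1.sum) ∪ I (0 + L0.sum) (56 - L3.sum)))) :
      Finset (Fin 61)) = I L0.sum (56 - L3.sum) ∪ (I 56 (57 - L1.sum) ∪ (I 57 (58 - L2.sum) ∪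
      (I 58 (59 - L5.sum) ∪ I 59 (61 - L4.sum)))) := by
    ext v
    simp only [Finset.mem_union, mem_I]
    omega
  rw [e2]
  exact h

/-- The remaining block when both hubs are in the same block. -/
theorem merged (lo hi q1 q2 q3 q4 : ℕ) (h1 : lo ≤ 30) (h2 : 44 ≤ hi) (h3 : hi ≤ 56)
    (h4 : 56 ≤ q1) (h5 : q1 ≤ 57) (h6 : 57 ≤ q2) (h7 : q2 ≤ 58) (h8 : 58 ≤ q3) (h9 : q3 ≤ 59)
    (h10 : 59 ≤ q4) (h11 : q4 ≤ 61) :
    CP T (I lo hi ∪ (I 56 q1 ∪ (I 57 q2 ∪ (I 58 q3 ∪ I 59 q4))))
      {(hi - lo) + (q1 - 56) + (q2 - 57) + (q3 - 58) + (q4 - 59)} := by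
  have hcard : (I lo hi ∪ (I 56 q1 ∪ (I 57 q2 ∪ (I 58 q3 ∪ I 59 q4))) :
      Finset (Fin 61)).card = (hi - lo) + (q1 - 56) + (q2 - 57) + (q3 - 58) + (q4 - 59) := by
    rw [Finset.card_union_of_disjoint, Finset.card_union_of_disjoint,
      Finset.card_union_of_disjoint, Finset.card_union_of_disjoint, card_I, card_I, card_I,
      card_I, card_I]
    · omega
    · omega
    · omega
    · omega
    · omega
    · omega
    all_goals
      apply hdis
      intro v hv
      simp only [Finset.mem_union, mem_I] at hv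
      omega
  rw [← hcard]
  apply CP.single
  refine connected_par _ ⟨lo, by omega⟩ ?_ ?_
  · simp only [Finset.mem_union, mem_I]
    omega
  · intro v hv hne
    have hne' : v.val ≠ lo := fun h => hne (Fin.ext h)
    simp only [Finset.mem_union, mem_I] at hv
    refine ⟨by omega, ?_⟩
    intro w hw
    simp only [Finset.mem_union, mem_I]
    unfold par at hw
    split_ifs at hw <;> omega

/-- The remaining region when the hubs are in different blocks. -/
theorem two (lo hi q1 q2 q3 q4 x : ℕ) (L : Multiset ℕ) (pL : ∀ p ∈ L, 1 ≤ p)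
    (h1 : lo ≤ 30) (h2 : 44 ≤ hi) (h3 : hi ≤ 56)
    (h4 : 56 ≤ q1) (h5 : q1 ≤ 57) (h6 : 57 ≤ q2) (h7 : q2 ≤ 58) (h8 : 58 ≤ q3) (h9 : q3 ≤ 59)
    (h10 : 59 ≤ q4) (h11 : q4 ≤ 61) (hx : 31 ≤ x) (hx' : x + L.sum ≤ 43) :
    CP T (I lo hi ∪ (I 56 q1 ∪ (I 57 q2 ∪ (I 58 q3 ∪ I 59 q4))))
      (((x - lo) + (q1 - 56) + (q2 - 57)) ::ₘ
        (L + {(hi - (x + L.sum)) + (q3 - 58) + (q4 - 59)})) := by
  -- the first hub block
  set B : Finset (Fin 61) := I lo x ∪ (I 56 q1 ∪ I 57 q2) with hB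
  have hBcard : B.card = (x - lo) + (q1 - 56) + (q2 - 57) := by
    rw [hB, Finset.card_union_of_disjoint, Finset.card_union_of_disjoint, card_I, card_I, card_I]
    · omega
    · omega
    · omega
    · omega
    all_goals
      apply hdis
      intro v hv
      simp only [Finset.mem_union, mem_I] at hv
      omega
  have hBcon : (T.induce (B : Set (Fin 61))).Connected := by
    refine connected_par _ ⟨lo, by omega⟩ ?_ ?_
    · rw [hB]
      simp only [Finset.mem_union, mem_I]
      omega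
    · intro v hv hne
      have hne' : v.val ≠ lo := fun h => hne (Fin.ext h)
      rw [hB] at hv
      simp only [Finset.mem_union, mem_I] at hv
      refine ⟨by omega, ?_⟩
      intro w hw
      rw [hB]
      simp only [Finset.mem_union, mem_I]
      unfold par at hw
      split_ifs at hw <;> omega
  have e : (I lo hi ∪ (I 56 q1 ∪ (I 57 q2 ∪ (I 58 q3 ∪ I 59 q4))) : Finset (Fin 61)) =
      (I x hi ∪ (I 58 q3 ∪ I 59 q4)) ∪ B := by
    rw [hB]
    ext v
    simp only [Finset.mem_union, mem_I]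
    omega
  rw [e, ← hBcard]
  apply CP.add
  · rw [Finset.disjoint_left]
    intro v hv hv'
    rw [hB] at hv'
    simp only [Finset.mem_union, mem_I] at hv hv'
    omega
  · exact hBcon
  -- the middle blocks
  refine CP.left (by omega) L pL (adj_main h3) (by omega) (hdis _ _ _ ?_) ?_
  · intro v hv
    simp only [Finset.mem_union, mem_I] at hv
    omega
  -- the second hub block
  have hcard : (I (x + L.sum) hi ∪ (I 58 q3 ∪ I 59 q4) :
      Finset (Fin 61)).card = (hi - (x + L.sum)) + (q3 - 58) + (q4 - 59) := by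
    rw [Finset.card_union_of_disjoint, Finset.card_union_of_disjoint, card_I, card_I, card_I]
    · omega
    · omega
    · omega
    · omega
    all_goals
      apply hdis
      intro v hv
      simp only [Finset.mem_union, mem_I] at hv
      omega
  rw [← hcard]
  apply CP.single
  refine connected_par _ ⟨x + L.sum, by omega⟩ ?_ ?_
  · simp only [Finset.mem_union, mem_I]
    omega
  · intro v hv hne
    have hne' : v.val ≠ x + L.sum := fun h => hne (Fin.ext h)
    simp only [Finset.mem_union, mem_I] at hv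
    refine ⟨by omega, ?_⟩
    intro w hw
    simp only [Finset.mem_union, mem_I]
    unfold par at hw
    split_ifs at hw <;> omega

/-- From a packing to a connected partition, different hub blocks. -/
theorem fin_two (M : Multiset ℕ) (s1 s2 : ℕ) (c' : Fin 7 → ℕ) (hM : ∀ p ∈ M, 1 ≤ p)
    (h : Pk ![30, 1, 1, 12, 2, 1, 12] M c') (h1 : LU c' + 1 ≤ s1) (h2 : LW c' + 1 ≤ s2)
    (hsum : M.sum + s1 + s2 = 61) : CP T Finset.univ (s1 ::ₘ s2 ::ₘ M) := by
  obtain ⟨L, hL, hc⟩ := h.split
  have hLpos : ∀ i, ∀ p ∈ L i, 1 ≤ p := by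
    intro i p hp
    apply hM
    rw [← hL]
    exact Multiset.mem_of_le (Finset.single_le_sum (f := L) (fun _ _ => Multiset.zero_le _)
      (Finset.mem_univ i)) hp
  have c0 := hc 0
  have c1 := hc 1
  have c2 := hc 2
  have c3 := hc 3
  have c4 := hc 4
  have c5 := hc 5
  have c6 := hc 6
  simp at c0 c1 c2 c3 c4 c5 c6
  have hMsum : M.sum = (L 0).sum + (L 1).sum + (L 2).sum + (L 3).sum + (L 4).sum + (L 5).sum +
      (L 6).sum := by
    rw [← hL, Fin.sum_univ_seven]
    simp only [Multiset.sum_add]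
  have hMs : s1 ::ₘ s2 ::ₘ M = L 0 + (L 3 + (L 1 + (L 2 + (L 5 + (L 4 +
      (s1 ::ₘ (L 6 + {s2}))))))) := by
    rw [← hL, Fin.sum_univ_seven, ← Multiset.singleton_add, ← Multiset.singleton_add,
      ← Multiset.singleton_add]
    abel
  unfold LU at h1
  unfold LW at h2
  rw [hMs]
  apply legs _ _ _ _ _ _ _ (hLpos 0) (hLpos 1) (hLpos 2) (hLpos 3) (hLpos 4) (hLpos 5)
    (by omega) (by omega) (by omega) (by omega) (by omega) (by omega)
  have key := two (L 0).sum (56 - (L 3).sum) (57 - (L 1).sum) (58 - (L 2).sum) (59 - (L 5).sum)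
    (61 - (L 4).sum) (s1 + (L 0).sum - (1 - (L 1).sum) - (1 - (L 2).sum)) (L 6) (hLpos 6)
    (by omega) (by omega) (by omega) (by omega) (by omega) (by omega) (by omega) (by omega)
    (by omega) (by omega) (by omega) (by omega) (by omega)
  have e1 : (s1 + (L 0).sum - (1 - (L 1).sum) - (1 - (L 2).sum) - (L 0).sum) +
      (57 - (L 1).sum - 56) + (58 - (L 2).sum - 57) = s1 := by omega
  have e2 : (56 - (L 3).sum - (s1 + (L 0).sum - (1 - (L 1).sum) - (1 - (L 2).sum) +
      (L 6).sum)) + (59 - (L 5).sum - 58) + (61 - (L 4).sum - 59) = s2 := by omega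
  rw [e1, e2] at key
  exact key

/-- From a packing to a connected partition, one hub block. -/
theorem fin_one (M : Multiset ℕ) (s1 : ℕ) (c' : Fin 7 → ℕ) (hM : ∀ p ∈ M, 1 ≤ p)
    (h : Pk ![30, 1, 1, 12, 2, 1, 0] M c') (hsum : M.sum + s1 = 61) :
    CP T Finset.univ (s1 ::ₘ M) := by
  obtain ⟨L, hL, hc⟩ := h.split
  have hLpos : ∀ i, ∀ p ∈ L i, 1 ≤ p := by
    intro i p hp
    apply hM
    rw [← hL]
    exact Multiset.mem_of_le (Finset.single_le_sum (f := L) (fun _ _ => Multiset.zero_le _)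
      (Finset.mem_univ i)) hp
  have c0 := hc 0
  have c1 := hc 1
  have c2 := hc 2
  have c3 := hc 3
  have c4 := hc 4
  have c5 := hc 5
  have c6 := hc 6
  simp at c0 c1 c2 c3 c4 c5 c6
  have z6 := eq_zero_of_sum (hLpos 6) c6.1
  have hMsum : M.sum = (L 0).sum + (L 1).sum + (L 2).sum + (L 3).sum + (L 4).sum + (L 5).sum := by
    rw [← hL, Fin.sum_univ_seven, z6]
    simp only [Multiset.sum_add, add_zero]
  have hMs : s1 ::ₘ M = L 0 + (L 3 + (L 1 + (L 2 + (L 5 + (L 4 + {s1}))))) := by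
    rw [← hL, Fin.sum_univ_seven, ← Multiset.singleton_add, z6]
    abel
  rw [hMs]
  apply legs _ _ _ _ _ _ _ (hLpos 0) (hLpos 1) (hLpos 2) (hLpos 3) (hLpos 4) (hLpos 5)
    (by omega) (by omega) (by omega) (by omega) (by omega) (by omega)
  have key := merged (L 0).sum (56 - (L 3).sum) (57 - (L 1).sum) (58 - (L 2).sum)
    (59 - (L 5).sum) (61 - (L 4).sum)
    (by omega) (by omega) (by omega) (by omega) (by omega) (by omega) (by omega) (by omega)
    (by omega) (by omega) (by omega)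
  have e1 : (56 - (L 3).sum - (L 0).sum) + (57 - (L 1).sum - 56) + (58 - (L 2).sum - 57) +
      (59 - (L 5).sum - 58) + (61 - (L 4).sum - 59) = s1 := by omega
  rw [e1] at key
  exact key

/-- The initial states. -/
def init (m1 m2 : ℕ) : List ℕ :=
  insA m1 m2 (61 - m1 - m2) (enc 30 1 1 12 2 1 12 1)
    (insA m1 m2 (61 - m1 - m2) (enc 30 1 1 12 2 1 12 2)
      (moves m1 m2 m2 (61 - m1 - m2) (enc 30 1 1 12 2 1 0 0) []))

/-- The checks for all pairs. -/
def chk (m1 m2 : ℕ) : Bool :=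
  bif Nat.ble 1 m2 && (Nat.ble m2 m1 && Nat.ble (m1 + m2) 61) then
    good m1 m2 32 130 m2 (61 - m1 - m2) (init m1 m2) else true

/-- The checks for all second largest parts. -/
def chkAll (m1 : ℕ) : Bool := (List.range 62).all (fun m2 => chk m1 m2)

theorem search : (List.range 62).all chkAll = true := by
  decide +kernel

theorem search' (m1 m2 : ℕ) (h1 : 1 ≤ m2) (h2 : m2 ≤ m1) (h3 : m1 + m2 ≤ 61) :
    good m1 m2 32 130 m2 (61 - m1 - m2) (init m1 m2) = true := by
  have e1 := List.all_eq_true.1 search m1 (List.mem_range.2 (by omega))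
  unfold chkAll at e1
  have e2 := List.all_eq_true.1 e1 m2 (List.mem_range.2 (by omega))
  unfold chk at e2
  have b1 : Nat.ble 1 m2 = true := by rw [Nat.ble_eq]; exact h1
  have b2 : Nat.ble m2 m1 = true := by rw [Nat.ble_eq]; exact h2
  have b3 : Nat.ble (m1 + m2) 61 = true := by rw [Nat.ble_eq]; exact h3
  rw [b1, b2, b3, Bool.and_self, Bool.and_self, cond_true] at e2
  exact e2

theorem T_conn (A : Multiset ℕ) (hA : ∀ p ∈ A, 1 ≤ p) (hsum : A.sum = 61) :
    CP T Finset.univ A := by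
  have hne : A ≠ 0 := by
    intro h
    rw [h] at hsum
    simp at hsum
  obtain ⟨m1, A1, hA1, hmax1⟩ := exists_max_cons hne
  subst hA1
  rw [Multiset.sum_cons] at hsum
  have hA1pos : ∀ p ∈ A1, 1 ≤ p := fun p hp => hA p (Multiset.mem_cons_of_mem hp)
  by_cases h0 : A1 = 0
  · subst h0
    exact fin_one 0 m1 _ (by simp) (Pk.nil _) (by simpa using hsum)
  obtain ⟨m2, M, hM, hmax2⟩ := exists_max_cons h0
  subst hM
  have hm2 : m2 ≤ m1 := hmax1 m2 (Multiset.mem_cons_self m2 M)
  have hm2' : 1 ≤ m2 := hA1pos m2 (Multiset.mem_cons_self m2 M)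
  have hMpos : ∀ p ∈ M, 1 ≤ p := fun p hp => hA1pos p (Multiset.mem_cons_of_mem hp)
  have hsum' := hsum
  rw [Multiset.sum_cons] at hsum
  have d1 : dc (enc 30 1 1 12 2 1 12 1) = ![30, 1, 1, 12, 2, 1, 12] := by decide +kernel
  have d2 : dc (enc 30 1 1 12 2 1 12 2) = ![30, 1, 1, 12, 2, 1, 12] := by decide +kernel
  have d3 : dc (enc 30 1 1 12 2 1 0 0) = ![30, 1, 1, 12, 2, 1, 0] := by decide +kernel
  have k1 : kd (enc 30 1 1 12 2 1 12 1) = 1 := by decide +kernel
  have k2 : kd (enc 30 1 1 12 2 1 12 2) = 2 := by decide +kernel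
  have k3 : kd (enc 30 1 1 12 2 1 0 0) = 0 := by decide +kernel
  have hinit : ∀ t ∈ init m1 m2, t = enc 30 1 1 12 2 1 12 1 ∨ t = enc 30 1 1 12 2 1 12 2 ∨
      ∃ i : Fin 7, m2 ≤ dc (enc 30 1 1 12 2 1 0 0) i ∧
        t = enc 30 1 1 12 2 1 0 0 - m2 * wt i := by
    intro t ht
    unfold init at ht
    rcases mem_insA ht with h | h
    · exact Or.inl h
    rcases mem_insA h with h | h
    · exact Or.inr (Or.inl h)
    rcases mem_moves h with h | h
    · exact Or.inr (Or.inr h)
    · simp at h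
  obtain ⟨t, ht, hOK⟩ := good_sound m1 m2 32 130 m2 (61 - m1 - m2) (init m1 m2)
    (search' m1 m2 hm2' hm2 (by omega)) (by
      intro t ht
      rcases hinit t ht with h | h | ⟨i, hi, h⟩
      · right
        rw [h, d1]
        simp [LU, LW]
        omega
      · right
        rw [h, d2]
        simp [LU, LW]
        omega
      · left
        rw [h, (dc_move _ m2 i hi).2, k3]) M
    (fun p hp => ⟨hMpos p hp, hmax2 p hp⟩) (by omega)
  rcases hinit t ht with h | h | ⟨i, hi, h⟩
  · subst h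
    obtain ⟨c', hc', h5⟩ := hOK
    rw [k1] at h5
    rw [d1] at hc'
    rcases h5 with h5 | h5 | h5
    · omega
    · exact fin_two M m1 m2 c' hMpos hc' h5.2.1 h5.2.2 (by omega)
    · omega
  · subst h
    obtain ⟨c', hc', h5⟩ := hOK
    rw [k2] at h5
    rw [d2] at hc'
    rcases h5 with h5 | h5 | h5
    · omega
    · omega
    · rw [Multiset.cons_swap]
      exact fin_two M m2 m1 c' hMpos hc' h5.2.1 h5.2.2 (by omega)
  · rw [h] at hOK
    obtain ⟨c', hc', -⟩ := hOK.move i hi
    rw [d3] at hc'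
    exact fin_one (m2 ::ₘ M) m1 c' hA1pos hc' (by omega)

theorem deg_le : ∀ v : Fin 61, T.degree v ≤ 4 := by decide +kernel

theorem deg30 : T.degree 30 = 4 := by decide +kernel

theorem deg43 : T.degree 43 = 4 := by decide +kernel

/-- **Answer to Q1 (the statement is false).** There is a CPET tree with two vertices of
degree 4. -/
theorem result : ∃ (n : ℕ) (T : SimpleGraph (Fin n)), IsCPET T ∧
    ∃ v w, v ≠ w ∧ (T.neighborSet v).ncard = 4 ∧ (T.neighborSet w).ncard = 4 := by
  refine ⟨61, T, ⟨T_isTree, isMaxDegree_of T 4 deg_le 30 deg30, ?_⟩, 30, 43, by decide, ?_, ?_⟩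
  · intro M hM hsum
    rw [Fintype.card_fin] at hsum
    exact T_conn M hM hsum
  · rw [ncard_eq_degree]
    exact deg30
  · rw [ncard_eq_degree]
    exact deg43

end Pool.Agent.Results.MP_d6ea2c_co.TwoHubCPETTree
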